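import Pool.Agent.GeoNet.NetBridge
import Pool.Agent.GeoNet.Exp
import Pool.Agent.GeoNet.Annulus2
import Pool.Agent.GeoNet.Convert
import Pool.Agent.GeoNet.Induct

/-!
# The number of vertices of a closed geodesic net is bounded in terms of its length

The definitions used in the statement are in `Pool/Agent/GeoNet/NetDefs.lean`.

Outline of the proof (all files in `Pool/Agent/GeoNet`).

* `Exp*`: a metric on a ball which is close to the Euclidean one has exact polar functions around
  each centre (exponential map, Gauss lemma); `Mfd*`: finitely many charts of the compact manifold
  in which the rescaled metric is close to the Euclidean one reduce the theorem to a local bound.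
* `Sweep*`: for a centre `O` the sum over the arcs crossing the sphere of radius `r` of the cosines
  of the angles with the radial direction, the density, is nondecreasing in `r`, and its
  derivative is at least (number of arcs - density) / `r`.
* `Plateau*`: where the density is almost an integer `k`, exactly `k` arcs cross each sphere (first
  variation applied to small clusters).
* `Threads`: so the net is a system of `k` almost radial threads there.
* `Estimate`, `Block`, `Collide`: the collision theorem.  A system of `k` threads in a thin cone has
  a number of collision times bounded in terms of `k` only.  The key is a monotone functional: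
  for each centre `O`, the sum of `rho_O (X_i) - g (Z_O (X_i), X_i')` is nonincreasing.
* `Annulus*`, `Induct`: induction over the density.
-/

namespace Pool.Agent.Results.MP_c30897_gt.VertexBound

open Pool.Agent.GeoNet Pool.Agent.GeoNet.Nets
open scoped ContDiff Manifold

/-- Becker-Kahn question: on a closed Riemannian manifold the number of vertices of a closed
geodesic net is bounded by a function of its length. -/
theorem result (n : ℕ) (M : Type*) [TopologicalSpace M] [CompactSpace M] [T2Space M]
    [ChartedSpace (EuclideanSpace ℝ (Fin n)) M] [IsManifold (𝓡 n) ∞ M]
    (G : RiemMetric (EuclideanSpace ℝ (Fin n)) M) :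
    ∃ f : ℝ → ℕ, ∀ 𝒩 : ClosedNet G, 𝒩.V.card ≤ f 𝒩.length := by
  obtain ⟨f, hf⟩ := main_of_local exists_locGeo
    (fun L => local_bound_of (fun k _ => annulus_bound _ k)
      (fun _ 𝒩 _ hO => 𝒩.exists_onet hO) L) (n := n) (M := M) G
  exact ⟨f, fun 𝒩 => hf (netBridge 𝒩)⟩

end Pool.Agent.Results.MP_c30897_gt.VertexBound
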